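import Mathlib
import Pool.Agent.H51.SM.Final

set_option autoImplicit false

namespace Pool.Agent.Results.MP_1785cf_an.OnlyHilbertModels

open Finset Filter

/-- `e` is a Schauder basis of the Banach space `X`: every vector is in exactly one way the sum of
a convergent series `Σ a_i e_i`. -/
def IsSchauderBasis {X : Type} [NormedAddCommGroup X] [NormedSpace ℝ X] (e : ℕ → X) : Prop :=
  ∀ x : X, ∃! a : ℕ → ℝ, Tendsto (fun n => ∑ i ∈ range n, a i • e i) atTop (nhds x)

/-- `y` is a normalized block basis of `e`. -/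
def IsNormalizedBlockBasis {X : Type} [NormedAddCommGroup X] [NormedSpace ℝ X]
    (e y : ℕ → X) : Prop :=
  ∃ (m : ℕ → ℕ) (c : ℕ → ℝ), StrictMono m ∧
    (∀ n, y n = ∑ i ∈ Ico (m n) (m (n + 1)), c i • e i) ∧ ∀ n, ‖y n‖ = 1

/-- The sequence `x` generates the spreading model with the norm `L`: for all scalars
`a_1, .., a_k` the norms of `a_1 x_(n_1) + .. + a_k x_(n_k)` tend to `L k a` when
`n_1 → ∞`, `n_1 < .. < n_k`. -/
def Generates {X : Type} [NormedAddCommGroup X] [NormedSpace ℝ X] (x : ℕ → X)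
    (L : (k : ℕ) → (Fin k → ℝ) → ℝ) : Prop :=
  ∀ (k : ℕ) (a : Fin k → ℝ), ∀ ε > 0, ∃ N : ℕ, ∀ n : Fin k → ℕ, StrictMono n → (∀ i, N ≤ n i) →
    |‖∑ i, a i • x (n i)‖ - L k a| < ε

/-- The real sequence space `ℓ_2`. -/
abbrev L2 : Type := lp (fun _ : ℕ => ℝ) 2

/-- `e` is unconditional with constant one: the norm of `Σ a_i e_i` (finite sums) does not decrease
when the numbers `|a_i|` increase. -/
def OneUnconditional {X : Type} [NormedAddCommGroup X] [NormedSpace ℝ X] (e : ℕ → X) : Prop :=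
  ∀ (s : Finset ℕ) (a b : ℕ → ℝ), (∀ i ∈ s, |a i| ≤ |b i|) →
    ‖∑ i ∈ s, a i • e i‖ ≤ ‖∑ i ∈ s, b i • e i‖

/-- Every spreading model generated by a subsequence of a normalized block basis of `e` is
isometrically the unit vector basis of `ℓ_2`. -/
def AllModelsL2 {X : Type} [NormedAddCommGroup X] [NormedSpace ℝ X] (e : ℕ → X) : Prop :=
  ∀ y : ℕ → X, IsNormalizedBlockBasis e y → ∀ φ : ℕ → ℕ, StrictMono φ →
    ∀ L : (k : ℕ) → (Fin k → ℝ) → ℝ, Generates (fun n => y (φ n)) L →
      ∀ (k : ℕ) (a : Fin k → ℝ), L k a = √(∑ i, a i ^ 2)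

/-- Every bounded operator from `ℓ_2` into `X` is compact. -/
def CompactFromL2 (X : Type) [NormedAddCommGroup X] [NormedSpace ℝ X] : Prop :=
  ∀ T : L2 →L[ℝ] X, IsCompactOperator T

/-- Some closed subspace of `X` is isomorphic to `ℓ_2`. -/
def ContainsL2 (X : Type) [NormedAddCommGroup X] [NormedSpace ℝ X] : Prop :=
  ∃ Y : Submodule ℝ X, IsClosed (Y : Set X) ∧ Nonempty (Y ≃L[ℝ] L2)

section hilbert

variable {H : Type} [NormedAddCommGroup H] [InnerProductSpace ℝ H]
  {X : Type} [NormedAddCommGroup X] [NormedSpace ℝ X]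

/-- an orthonormal sequence satisfies Pythagoras -/
theorem norm_sum_orth (u : ℕ → H) (h1 : ∀ n, ‖u n‖ = 1)
    (h2 : ∀ m n, m < n → inner ℝ (u m) (u n) = 0) (m : ℕ) (a : ℕ → ℝ) :
    ‖∑ i ∈ range m, a i • u i‖ = √(∑ i ∈ range m, a i ^ 2) := by
  have key : ‖∑ i ∈ range m, a i • u i‖ ^ 2 = ∑ i ∈ range m, a i ^ 2 := by
    induction m with
    | zero => simp
    | succ m ih =>
      have h3 : inner ℝ (∑ i ∈ range m, a i • u i) (a m • u m) = 0 := by
        rw [sum_inner]
        refine sum_eq_zero fun i hi => ?_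
        rw [inner_smul_left, inner_smul_right, h2 i m (mem_range.1 hi)]
        simp
      rw [sum_range_succ, sum_range_succ, ← ih]
      have h4 := norm_add_sq_real (∑ i ∈ range m, a i • u i) (a m • u m)
      rw [h4, h3, norm_smul, h1, mul_one, Real.norm_eq_abs, sq_abs]
      ring
  rw [← key, Real.sqrt_sq (norm_nonneg _)]

/-- a map on a Hilbert space that is small on no complement of a finite-dimensional subspace is
bounded below on an orthonormal sequence -/
theorem exists_orth (T : H →L[ℝ] X) (ε : ℝ)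
    (h : ∀ F : Submodule ℝ H, FiniteDimensional ℝ F → ∃ x ∈ Fᗮ, ε * ‖x‖ < ‖T x‖) :
    ∃ u : ℕ → H, (∀ n, ‖u n‖ = 1) ∧ (∀ m n, m < n → inner ℝ (u m) (u n) = 0) ∧
      ∀ n, ε ≤ ‖T (u n)‖ := by
  obtain ⟨u, hu1, hu2⟩ := exists_seq_of_forall_finset_exists
    (fun u : H => ‖u‖ = 1 ∧ ε ≤ ‖T u‖) (fun u v => inner ℝ u v = 0) (by
      intro s _
      obtain ⟨x, hx, hTx⟩ := h (Submodule.span ℝ (s : Set H)) (FiniteDimensional.span_finset ℝ s)
      have hx0 : x ≠ 0 := by
        rintro rfl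
        simp at hTx
      have hn : 0 < ‖x‖ := norm_pos_iff.2 hx0
      refine ⟨‖x‖⁻¹ • x, ⟨?_, ?_⟩, ?_⟩
      · rw [norm_smul, norm_inv, norm_norm, inv_mul_cancel₀ hn.ne']
      · rw [map_smul, norm_smul, norm_inv, norm_norm]
        rw [inv_mul_eq_div, le_div_iff₀ hn]
        exact hTx.le
      · intro v hv
        rw [inner_smul_right, (Submodule.mem_orthogonal _ _).1 hx v (Submodule.subset_span hv),
          mul_zero])
  exact ⟨u, fun n => (hu1 n).1, hu2, fun n => (hu1 n).2⟩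

/-- if no orthonormal sequence is mapped to a sequence bounded below, the map is compact -/
theorem compact_of_orth [CompleteSpace X] [CompleteSpace H] (T : H →L[ℝ] X)
    (h : ∀ ε : ℝ, 0 < ε → ∀ u : ℕ → H, (∀ n, ‖u n‖ = 1) →
      (∀ m n, m < n → inner ℝ (u m) (u n) = 0) → ¬ ∀ n, ε ≤ ‖T (u n)‖) :
    IsCompactOperator T := by
  have h1 : ∀ ε : ℝ, 0 < ε → ∃ F : Submodule ℝ H, FiniteDimensional ℝ F ∧
      ∀ x ∈ Fᗮ, ‖T x‖ ≤ ε * ‖x‖ := by
    intro ε hε
    by_contra hcon
    push Not at hcon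
    obtain ⟨u, hu1, hu2, hu3⟩ := exists_orth T ε hcon
    exact h ε hε u hu1 hu2 hu3
  choose F hF1 hF2 using fun n : ℕ => h1 (1 / ((n : ℝ) + 1)) (by positivity)
  let P : ℕ → (H →L[ℝ] H) := fun n => by
    have := hF1 n
    exact (F n).starProjection
  have hPk : ∀ n, IsCompactOperator (T ∘L P n) := by
    intro n
    have := hF1 n
    have e1 : T ∘L P n = (T ∘L (F n).subtypeL) ∘L (F n).orthogonalProjectionOnto := by
      ext x
      rfl
    rw [e1]
    have : ProperSpace (F n) := FiniteDimensional.proper ℝ (F n)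
    have h2 : IsCompactOperator (T ∘L (F n).subtypeL) :=
      isCompactOperator_of_locallyCompactSpace_rng _
    exact h2.comp_clm (F n).orthogonalProjectionOnto
  have hlim : Tendsto (fun n => T ∘L P n) atTop (nhds T) := by
    rw [tendsto_iff_norm_sub_tendsto_zero]
    refine squeeze_zero (fun n => norm_nonneg _) (fun n => ?_)
      (tendsto_one_div_add_atTop_nhds_zero_nat (𝕜 := ℝ))
    have := hF1 n
    refine ContinuousLinearMap.opNorm_le_bound _ (by positivity) fun x => ?_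
    have e2 : (T ∘L P n - T) x = - T (x - (F n).starProjection x) := by
      rw [map_sub, neg_sub]
      rfl
    rw [e2, norm_neg]
    refine (hF2 n _ (Submodule.sub_starProjection_mem_orthogonal x)).trans ?_
    apply mul_le_mul_of_nonneg_left _ (by positivity)
    have h3 := Submodule.norm_sq_eq_add_norm_sq_projection x (F n)
    have h4 : ‖x - (F n).starProjection x‖ = ‖(F n)ᗮ.orthogonalProjectionOnto x‖ := by
      rw [← Submodule.starProjection_orthogonal_val]
      rfl
    rw [h4]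
    exact (Submodule.norm_orthogonalProjectionOnto_apply_le _ x)
  exact isCompactOperator_of_tendsto hlim (Eventually.of_forall hPk)

end hilbert

section glide

open Pool.Agent.H51.SM

variable {X : Type} [NormedAddCommGroup X] [NormedSpace ℝ X]
  {ι : (ℕ →₀ ℝ) →ₗ[ℝ] X} {f : ℕ → X →L[ℝ] ℝ} {N : (ℕ →₀ ℝ) → ℝ}

theorem glide (hN : ∀ x, ‖ι x‖ = N x) (hd : DenseRange ι) (hf : ∀ n x, f n (ι x) = x n)
    (hproj : ∀ x (m : ℕ), N (x.filter (fun i => i < m)) ≤ N x)
    (F2 : ∀ z : ℕ → (ℕ →₀ ℝ),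
      (∀ s t, s < t → ∀ i ∈ (z s).support, ∀ j ∈ (z t).support, i < j) →
      ∀ c C : ℝ, 0 < c → (∀ j, c ≤ N (z j)) →
        ¬ (∀ (m : ℕ) (a : ℕ → ℝ),
          N (∑ j ∈ range m, a j • z j) ≤ C * Real.sqrt (∑ j ∈ range m, a j ^ 2)))
    (y : ℕ → X) (C : ℝ) (hC : 0 < C)
    (hup : ∀ (n : ℕ) (a : ℕ → ℝ),
      ‖∑ i ∈ range n, a i • y i‖ ≤ C * √(∑ i ∈ range n, a i ^ 2))
    (hlow : ∀ n, 1 ≤ C * ‖y n‖) : False := by
  have hcoord0 : ∀ i, Tendsto (fun n => f i (y n)) atTop (nhds 0) := fun i =>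
    asm_coord (f i) y C hup
  have hstep := asm_step hN hd hf hproj y hcoord0
  -- the gliding hump
  set q : ℝ := min 1 (1 / (2 * C)) with hq
  have hq0 : 0 < q := by rw [hq]; positivity
  have hq1 : q ≤ 1 := min_le_left _ _
  have hq2 : q ≤ 1 / (2 * C) := min_le_right _ _
  choose! nn MM zz hz1 hz2 hz3 hz4 using fun (p M j : ℕ) =>
    hstep p M (q * (1 / 2) ^ (j + 1)) (by positivity)
  let st : ℕ → ℕ × ℕ := fun j => Nat.rec (0, 0) (fun j s => (nn s.1 s.2 j, MM s.1 s.2 j)) j
  have hst : ∀ j, st (j + 1) = (nn (st j).1 (st j).2 j, MM (st j).1 (st j).2 j) := fun j => rfl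
  let n : ℕ → ℕ := fun j => (st (j + 1)).1
  let M : ℕ → ℕ := fun j => (st j).2
  let z : ℕ → (ℕ →₀ ℝ) := fun j => zz (st j).1 (st j).2 j
  have hnn : StrictMono n := strictMono_nat_of_lt_succ fun j => by
    have := hz1 (st (j + 1)).1 (st (j + 1)).2 (j + 1)
    simpa only [n, hst (j + 1)] using this
  have hMM : StrictMono M := strictMono_nat_of_lt_succ fun j => by
    have := hz2 (st j).1 (st j).2 j
    simpa only [M, hst j] using this
  have hzs : ∀ j, ∀ i ∈ (z j).support, M j ≤ i ∧ i < M (j + 1) := by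
    intro j i hi
    have := hz3 (st j).1 (st j).2 j i hi
    simpa only [M, hst j] using this
  have hzy : ∀ j, ‖ι (z j) - y (n j)‖ ≤ q * (1 / 2) ^ (j + 1) := by
    intro j
    have := hz4 (st j).1 (st j).2 j
    simpa only [z, n, hst j] using this
  refine F2 z (fun s t hst i hi j hj => ?_) (1 / (2 * C)) (C + 1) (by positivity) (fun j => ?_) ?_
  · have h1 := (hzs s i hi).2
    have h2 := (hzs t j hj).1
    have h3 : M (s + 1) ≤ M t := hMM.monotone hst
    omega
  · rw [← hN]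
    have h1 := hzy j
    have h2 : (1 / 2 : ℝ) ^ (j + 1) ≤ 1 := pow_le_one₀ (by norm_num) (by norm_num)
    have h3 : q * (1 / 2) ^ (j + 1) ≤ q * 1 := mul_le_mul_of_nonneg_left h2 hq0.le
    have h4 : ‖y (n j)‖ - ‖ι (z j)‖ ≤ ‖ι (z j) - y (n j)‖ := by
      rw [norm_sub_rev]
      exact norm_sub_norm_le _ _
    have h5 : 1 / C ≤ ‖y (n j)‖ := by
      rw [div_le_iff₀ hC]
      linarith [hlow (n j)]
    have h6 : 1 / C = 1 / (2 * C) + 1 / (2 * C) := by field_simp; norm_num
    linarith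
  · intro m a
    have hsum : N (∑ j ∈ range m, a j • z j) = ‖∑ j ∈ range m, a j • ι (z j)‖ := by
      rw [← hN, map_sum]
      congr 1
      exact Finset.sum_congr rfl fun i _ => map_smul ι _ _
    rw [hsum]
    have h1 := asm_subseq y C hup n hnn m a
    have e1 : ∑ j ∈ range m, a j • ι (z j) = ∑ j ∈ range m, a j • y (n j) +
        ∑ j ∈ range m, a j • (ι (z j) - y (n j)) := by
      rw [← Finset.sum_add_distrib]
      refine Finset.sum_congr rfl fun j _ => ?_
      rw [← smul_add, add_sub_cancel]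
    have h2 : ‖∑ j ∈ range m, a j • (ι (z j) - y (n j))‖ ≤ √(∑ j ∈ range m, a j ^ 2) := by
      set s := √(∑ j ∈ range m, a j ^ 2) with hs
      have hs0 : 0 ≤ s := Real.sqrt_nonneg _
      have h3 : ∀ j ∈ range m, ‖a j • (ι (z j) - y (n j))‖ ≤ s * (1 / 2) ^ (j + 1) := by
        intro j hj
        rw [norm_smul]
        have h4 : ‖a j‖ ≤ s := by
          rw [Real.norm_eq_abs, hs]
          apply Real.abs_le_sqrt
          exact Finset.single_le_sum (f := fun j => a j ^ 2) (fun i _ => sq_nonneg _) hj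
        have h5 : ‖ι (z j) - y (n j)‖ ≤ (1 / 2) ^ (j + 1) := by
          refine (hzy j).trans ?_
          have : (0:ℝ) ≤ (1 / 2) ^ (j + 1) := by positivity
          nlinarith
        exact mul_le_mul h4 h5 (norm_nonneg _) hs0
      refine (norm_sum_le _ _).trans ((Finset.sum_le_sum h3).trans ?_)
      rw [← Finset.mul_sum]
      have h6 : ∑ j ∈ range m, (1 / 2 : ℝ) ^ (j + 1) ≤ 1 := by
        have h7 : ∀ m : ℕ, ∑ j ∈ range m, (1 / 2 : ℝ) ^ (j + 1) = 1 - (1 / 2) ^ m := by
          intro m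
          induction m with
          | zero => simp
          | succ m ih => rw [Finset.sum_range_succ, ih]; ring
        rw [h7]
        have : (0:ℝ) ≤ (1 / 2) ^ m := by positivity
        linarith
      nlinarith
    rw [e1]
    refine (norm_add_le _ _).trans ?_
    rw [add_mul, one_mul]
    exact add_le_add h1 h2

theorem no_upper (hN : ∀ x, ‖ι x‖ = N x) (hd : DenseRange ι) (hf : ∀ n x, f n (ι x) = x n)
    (hproj : ∀ x (m : ℕ), N (x.filter (fun i => i < m)) ≤ N x)
    (F2 : ∀ z : ℕ → (ℕ →₀ ℝ),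
      (∀ s t, s < t → ∀ i ∈ (z s).support, ∀ j ∈ (z t).support, i < j) →
      ∀ c C : ℝ, 0 < c → (∀ j, c ≤ N (z j)) →
        ¬ (∀ (m : ℕ) (a : ℕ → ℝ),
          N (∑ j ∈ range m, a j • z j) ≤ C * Real.sqrt (∑ j ∈ range m, a j ^ 2)))
    (y : ℕ → X) (c C : ℝ) (hc : 0 < c)
    (hup : ∀ (n : ℕ) (a : ℕ → ℝ),
      ‖∑ i ∈ range n, a i • y i‖ ≤ C * √(∑ i ∈ range n, a i ^ 2)) : ¬ ∀ n, c ≤ ‖y n‖ := by
  intro hlow
  refine glide hN hd hf hproj F2 y (max C (1 / c)) (lt_max_of_lt_right (by positivity)) ?_ ?_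
  · intro n a
    exact (hup n a).trans (mul_le_mul_of_nonneg_right (le_max_left _ _) (Real.sqrt_nonneg _))
  · intro n
    calc (1 : ℝ) = 1 / c * c := by field_simp
      _ ≤ max C (1 / c) * ‖y n‖ :=
        mul_le_mul (le_max_right _ _) (hlow n) hc.le
          ((by positivity : (0 : ℝ) ≤ 1 / c).trans (le_max_right _ _))

end glide

section norm

open Pool.Agent.H51.SM

variable {L : LS dm}

theorem NX_mono {x y : ℕ →₀ ℝ} (h : ∀ n, |x n| ≤ |y n|) : NX L x ≤ NX L y := by
  classical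
  rw [← NX_eq (U := x.support ∪ y.support) (x := x) subset_union_left,
    ← NX_eq (U := x.support ∪ y.support) (x := y) subset_union_right]
  exact nm_mono (fun n => abs_nonneg _) (fun n _ => h n) (fun n => abs_nonneg _)

theorem NX_single (n : ℕ) : NX L (Finsupp.single n 1) = 1 := by
  classical
  apply le_antisymm
  · have h1 := nm_le_sum (L := L) (Finsupp.single n (1 : ℝ)).support
      (x := fun m => |(Finsupp.single n (1 : ℝ)) m|) (fun m => abs_nonneg _)
    refine h1.trans ?_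
    rw [Finsupp.support_single _ one_ne_zero, sum_singleton]
    simp
  · have h1 := NX_coord (L := L) (Finsupp.single n (1 : ℝ)) n
    simpa using h1

end norm

/-- There is a Banach space with a normalized basis, unconditional with constant one, such that
all spreading models of all normalized block bases are isometrically the `ℓ_2` basis, but every
bounded operator from `ℓ_2` into the space is compact; in particular no closed subspace is
isomorphic to `ℓ_2`. -/
theorem result :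
    ∃ (X : Type) (_ : NormedAddCommGroup X) (_ : NormedSpace ℝ X) (_ : CompleteSpace X)
      (e : ℕ → X), IsSchauderBasis e ∧ (∀ n, ‖e n‖ = 1) ∧ OneUnconditional e ∧
      AllModelsL2 e ∧ CompactFromL2 X ∧ ¬ ContainsL2 X := by
  classical
  obtain ⟨L⟩ := Pool.Agent.H51.SM.exists_LS Pool.Agent.H51.SM.dm
  obtain ⟨X, i1, i2, i3, ι, f, hN, hd, hf⟩ := Pool.Agent.H51.SM.asm_completion
    (Pool.Agent.H51.SM.NX L) Pool.Agent.H51.SM.NX_add Pool.Agent.H51.SM.NX_smul
    Pool.Agent.H51.SM.NX_coord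
  have hproj := Pool.Agent.H51.SM.NX_filter (L := L)
  have hbas := Pool.Agent.H51.SM.asm_tendsto hN hd hf hproj
  have hno : ∀ (T : L2 →L[ℝ] X) (ε : ℝ), 0 < ε →
      ∀ u : ℕ → L2, (∀ n, ‖u n‖ = 1) →
      (∀ m n, m < n → inner ℝ (u m) (u n) = 0) → ¬ ∀ n, ε ≤ ‖T (u n)‖ := by
    intro T ε hε u h1 h2
    refine no_upper hN hd hf hproj Pool.Agent.H51.SM.F2_aux (fun n => T (u n)) ε ‖T‖ hε ?_
    intro n a
    have e1 : ∑ i ∈ range n, a i • T (u i) = T (∑ i ∈ range n, a i • u i) := by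
      rw [map_sum]
      exact sum_congr rfl fun i _ => (map_smul T _ _).symm
    rw [e1, ← norm_sum_orth u h1 h2]
    exact T.le_opNorm _
  refine ⟨X, i1, i2, i3, fun i => ι (Finsupp.single i 1), ?_, ?_, ?_, ?_,
    fun T => compact_of_orth T (hno T), ?_⟩
  · intro x
    refine ⟨fun i => f i x, hbas x, ?_⟩
    intro a ha
    funext j
    have h1 : Tendsto (fun n => f j (∑ i ∈ range n, a i • ι (Finsupp.single i 1))) atTop
        (nhds (f j x)) := ((f j).continuous.tendsto x).comp ha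
    have h2 : ∀ᶠ n in atTop, f j (∑ i ∈ range n, a i • ι (Finsupp.single i 1)) = a j := by
      filter_upwards [eventually_gt_atTop j] with n hn
      rw [map_sum, sum_eq_single j]
      · rw [map_smul, hf, Finsupp.single_eq_same, smul_eq_mul, mul_one]
      · intro i _ hij
        rw [map_smul, hf, Finsupp.single_eq_of_ne (Ne.symm hij), smul_zero]
      · intro hj
        exact absurd (mem_range.2 hn) hj
    exact (tendsto_nhds_unique (h1.congr' h2) tendsto_const_nhds).symm
  · intro n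
    rw [hN, NX_single]
  · intro s a b hab
    have e1 : ∀ c : ℕ → ℝ, ∑ i ∈ s, c i • ι (Finsupp.single i 1)
        = ι (∑ i ∈ s, c i • Finsupp.single i 1) := by
      intro c
      rw [map_sum]
      exact sum_congr rfl fun i _ => (map_smul ι _ _).symm
    have e2 : ∀ (c : ℕ → ℝ) (n : ℕ), (∑ i ∈ s, c i • Finsupp.single i (1 : ℝ)) n
        = if n ∈ s then c n else 0 := by
      intro c n
      rw [Finsupp.finsetSum_apply]
      simp [Finsupp.single_apply]
    rw [e1, e1, hN, hN]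
    refine NX_mono fun n => ?_
    rw [e2, e2]
    split_ifs with h
    · exact hab n h
    · exact le_rfl
  · rintro y ⟨m, c, hm, hyc, hy1⟩ φ hφ S hS k a
    set x' : ℕ → (ℕ →₀ ℝ) := fun n => ∑ i ∈ Ico (m (φ n)) (m (φ n + 1)), c i • Finsupp.single i 1
      with hx'
    have hιx : ∀ n, ι (x' n) = y (φ n) := by
      intro n
      rw [hyc, hx', map_sum]
      exact Finset.sum_congr rfl fun i _ => map_smul ι _ _
    have hsup : ∀ n, ∀ i ∈ (x' n).support, m (φ n) ≤ i ∧ i < m (φ n + 1) := by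
      intro n i hi
      by_contra hcon
      have : i ∉ Ico (m (φ n)) (m (φ n + 1)) := by rw [Finset.mem_Ico]; exact hcon
      apply Finsupp.mem_support_iff.1 hi
      rw [hx', Finsupp.finsetSum_apply]
      apply Finset.sum_eq_zero
      intro j hj
      have hij : j ≠ i := fun h => this (h ▸ hj)
      simp [hij]
    have hF := Pool.Agent.H51.SM.F1_aux (L := L) x' (fun s t hst i hi j hj => by
      have h1 := (hsup s i hi).2
      have h2 := (hsup t j hj).1
      have h4 := hφ hst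
      have h3 : m (φ s + 1) ≤ m (φ t) := hm.monotone h4
      omega) (fun n => by rw [← hN, hιx, hy1]) k a
    rw [← Pool.Agent.H51.SM.asm_l2]
    apply Pool.Agent.H51.SM.eq_of_abs_sub_le_all
    intro ε hε
    obtain ⟨N1, hN1⟩ := hS k a (ε / 2) (by positivity)
    obtain ⟨n, hn1, hn2, hn3⟩ := hF (ε / 2) (by positivity) N1
    have h1 := hN1 n hn1 hn2
    have h2 : Pool.Agent.H51.SM.NX L (∑ i, a i • x' (n i)) = ‖∑ i, a i • y (φ (n i))‖ := by
      rw [← hN, map_sum]
      congr 1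
      exact Finset.sum_congr rfl fun i _ => by rw [map_smul, hιx]
    rw [h2] at hn3
    rw [abs_le] at hn3 ⊢
    rw [abs_lt] at h1
    constructor <;> linarith [h1.1, h1.2, hn3.1, hn3.2]
  · rintro ⟨Y, -, ⟨ψ⟩⟩
    set T : L2 →L[ℝ] X :=
      Y.subtypeL ∘L (ψ.symm : L2 →L[ℝ] Y) with hT
    set u : ℕ → L2 := fun n => lp.single 2 n (1 : ℝ) with hu
    have hu1 : ∀ n, ‖u n‖ = 1 := by
      intro n
      rw [hu]
      simp
    refine hno T (‖(ψ : Y →L[ℝ] L2)‖ + 1)⁻¹ (by positivity) u hu1 ?_ ?_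
    · intro m n hmn
      rw [hu]
      simp only [lp.inner_single_left]
      have h2 : (lp.single 2 n (1 : ℝ) : L2) m = 0 := by
        rw [lp.single_apply_ne]
        exact hmn.ne
      rw [h2, inner_zero_right]
    · intro n
      have h2 : T (u n) = ((ψ.symm (u n) : Y) : X) := rfl
      have h3 : ‖u n‖ ≤ ‖(ψ : Y →L[ℝ] L2)‖ * ‖ψ.symm (u n)‖ := by
        have h4 := (ψ : Y →L[ℝ] L2).le_opNorm (ψ.symm (u n))
        simpa using h4
      rw [hu1] at h3
      have h5 : ‖((ψ.symm (u n) : Y) : X)‖ = ‖ψ.symm (u n)‖ := rfl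
      rw [h2, h5, inv_le_iff_one_le_mul₀ (by positivity)]
      nlinarith [norm_nonneg (ψ.symm (u n))]

end Pool.Agent.Results.MP_1785cf_an.OnlyHilbertModels
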